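import Pool.Agent.MTO.Stmts
import Pool.Agent.Helper46_MTG.Stab
import Pool.Agent.Helper64_MTA.Cen
import Pool.Agent.Helper46_MTGO.Hdf

/-! MTO, modules HLE and GSO (helper81): the Lie algebra of a group containing the Deligne torus in
even weight; the Mumford-Tate group from the Lie algebra. -/

set_option autoImplicit false

namespace Pool.Agent.MTO.H81

open Matrix Polynomial Module Pool.Agent.MT100 Pool.Agent.MTF Pool.Agent.Helper78_MT
  Pool.Agent.Helper46_MT Pool.Agent.MT100G Pool.Agent.MT100G.H46 Pool.Agent.MT100A.H64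
  Pool.Agent.MT100GO Pool.Agent.MT100GO.H46 Pool.Agent.Helper3_MT

universe u

/-- row HLE -/
theorem hle : HleStmt := by
  intro d _ _ w E V hw hw1 hV I hG hI
  obtain ⟨π, hπ, h1, h2, h3⟩ := proj_of hV
  have hI' : ∀ z : ℂ, z ≠ 0 → hz w π z ∈ zeros I ℂ := fun z hz0 => hI (hz_torus hπ h2 hz0)
  have hEs : Eᵀ = E := by
    have := hV.symm
    rwa [Even.neg_one_pow hw, one_smul] at this
  refine ⟨hw, hV.top, hV.indep, hV.span, hV.conj, symm_map hEs, ?_, hV.orth, hV.pos, ?_, ?_, ?_, ?_⟩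
  · intro i j
    rw [Matrix.map_apply]
    change starRingEnd ℂ (algebraMap ℚ ℂ (E i j)) = _
    simp
  · intro X hX Y hY
    exact Ul_br hX hY
  · intro X hX
    exact Ul_star hX
  · intro X hX
    exact hX.2
  · refine ⟨Phi' w π, Phi'_mem hπ hw1 hG hI', ?_⟩
    intro p x hx
    by_cases hp : p ≤ w
    · exact Phi'_piece hπ h2 hp hx
    · rw [hV.top p (by omega), Submodule.mem_bot] at hx
      rw [hx, mulVec_zero, smul_zero]

/-- row GSO -/
theorem gso : GsoStmt.{u} := by
  intro n _ _ w E V hw hw1 hcard hV hall K _ _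
  obtain ⟨π, hπ, h1, h2, h3⟩ := proj_of hV
  have hn : Nonempty n := Fintype.card_pos_iff.1 (by omega)
  have hE := det_ne hV
  have hE0 : E ≠ 0 := by
    rintro rfl
    rw [det_zero] at hE
    exact hE rfl
  have hEs : Eᵀ = E := by
    have := hV.symm
    rwa [Even.neg_one_pow hw, one_smul] at this
  have hFd := det_map hE
  have hFs := symm_map hEs
  apply Set.eq_of_subset_of_subset (mt_subO hV hE0 K)
  intro X hX I hG hI
  have hI' : ∀ z : ℂ, z ≠ 0 → hz w π z ∈ zeros I ℂ := fun z hz0 => hI _ (hz_torus hπ h2 hz0)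
  have hso : ∀ g ∈ SAut E, g ∈ zeros I ℂ := by
    intro g hg
    refine Pool.Agent.MT100B.H64.so_mem hFs hFd hG.1 hG.2.1 ?_
      (fun X hX => (hall I hG (fun Y hY => hI Y hY) X hX).1) hg.1 hg.2
    intro M hM hMp
    refine ⟨hM, fun p hp => ?_⟩
    rw [← pevC]
    apply hMp
    intro g hg
    rw [pevC]
    exact hg.2 p hp
  rw [← zeros_simO hE0] at hX
  refine transfer_gen ?_ K hX
  rw [zeros_simO hE0]
  exact simO_mem hn hG hE (fun c hc => scal_mem hπ hw1 hI' hc) hso

end Pool.Agent.MTO.H81
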